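import Mathlib

set_option autoImplicit false

namespace Pool.Agent.Results.MP_7a8221_co.Cex

def rot (c : ℤ × ℤ) : ℤ × ℤ := (-c.2, c.1)

def tile (k : ℕ) (t : ℤ × ℤ) : Finset (ℤ × ℤ) :=
  ({(0, 0), (1, 0), (2, 0), (0, 1)} : Finset (ℤ × ℤ)).image fun c => rot^[k] c + t

def Tileable (m n : ℕ) : Prop :=
  ∃ T : Finset (ℕ × (ℤ × ℤ)), ∀ c : ℤ × ℤ,
    (T.filter fun x => c ∈ tile x.1 x.2).card =
      if 0 ≤ c.1 ∧ c.1 < m ∧ 0 ≤ c.2 ∧ c.2 < n then 1 else 0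

def T0 : Finset (ℕ × (ℤ × ℤ)) :=
  {(0, (0, 0)), (1, (1, 2)), (3, (0, 5)), (0, (0, 6)), (1, (2, 1)),
    (2, (3, 7)), (0, (2, 4)), (1, (4, 0)), (3, (3, 3)), (1, (4, 5))}

theorem result : ∃ m n : ℕ, 1 ≤ m ∧ 1 ≤ n ∧ Tileable m n ∧
    ¬ ((4 ∣ m ∧ 2 ∣ n) ∨ (4 ∣ n ∧ 2 ∣ m)) := by
  refine ⟨5, 8, by norm_num, by norm_num, ⟨T0, fun c => ?_⟩, by norm_num⟩
  split_ifs with h
  · obtain ⟨a, b⟩ := c
    obtain ⟨h1, h2, h3, h4⟩ := h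
    simp only at h1 h2 h3 h4
    have key : ∀ a ∈ Finset.range 5, ∀ b ∈ Finset.range 8,
        (T0.filter fun x => ((a : ℤ), (b : ℤ)) ∈ tile x.1 x.2).card = 1 := by decide +kernel
    lift a to ℕ using h1
    lift b to ℕ using h3
    exact key a (Finset.mem_range.2 (by exact_mod_cast h2)) b
      (Finset.mem_range.2 (by exact_mod_cast h4))
  · rw [Finset.card_eq_zero, Finset.filter_eq_empty_iff]
    intro x hx hc
    have key : ∀ x ∈ T0, ∀ c ∈ tile x.1 x.2,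
        0 ≤ c.1 ∧ c.1 < (5 : ℕ) ∧ 0 ≤ c.2 ∧ c.2 < (8 : ℕ) := by decide +kernel
    exact h (key x hx c hc)

end Pool.Agent.Results.MP_7a8221_co.Cex
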